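import Pool.Agent.Q45.CT.EulF
import Pool.Agent.Q45.ML.Val
import Pool.Agent.TH339.MP.P9

/-!
# Analytic continuation of the L-series of elliptic curves over number fields: bounded means

`E` is an elliptic curve over a number field `K` and `c` a function with `|c| ≤ 1` (for example `c = 1`, or a Dirichlet
character). NOTHING is assumed on `L(s) = L(E ⊗ c, s)` outside of the half-plane `Re s > 3/2` of the Euler product; in
particular no continuation and no modularity. With `1 - a_v X + e_v X² = (1 - α_v X)(1 - β_v X)` the inverse Euler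
factor at `v`, the means

`S_T(s) = ∑_{v, k ≥ 1} c(Nv)^k (α_v^k + β_v^k) / (k Nv^{ks} Γ(1 + k log Nv / T))`, `T > 0`,

converge absolutely for EVERY complex `s`. With `C_T(z) = ∑_{k ≥ 1} e^{-khz} / (k Γ(1 + kh/T))`, `h = 1/(R+1)`, also
entire, the following are equivalent:

* there is an entire function equal to `L(s)` for `Re s > 3/2` (for `c = 1` this is the conclusion of the conjecture of
  Hasse and Weil for `E`);
* for every `R > 0` there are finitely many `u` with `Re u ≤ 3/2`, natural numbers `n(u)` and ONE sequence `T → ∞` such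
  that the real part of `S_T(s) + ∑_u n(u) C_T(s - u)` is bounded ABOVE on the square `|Re s|, |Im s| ≤ R` for the `T`
  of the sequence;
* the same with a bound for the absolute value and all large `T`.

The same holds for meromorphic continuation and integers `n(u)`; the `u` and `n(u)` give the zeros and poles of the
continuation in the open square with their orders; and `L` continues without zeros to an open set `D` with
`D + [0, ∞) ⊆ D` if and only if the `Re S_T` are locally bounded above on `D` along one sequence, without corrections.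
-/

set_option autoImplicit false

namespace Pool.Agent.Results.MP_7ed9c3_nt.BoundedMeans

open Complex Filter Topology Set NumberField IsDedekindDomain
open Pool.Agent.Q45.CT Pool.Agent.Q45.ML

section

variable {K : Type} [Field K] [NumberField K]

/-- `W v` is, for every finite place `v`, an integral model of `E` with discriminant minimal at `v`. -/
def MinimalModels (E : WeierstrassCurve K) (W : HeightOneSpectrum (𝓞 K) → WeierstrassCurve (𝓞 K)) : Prop :=
  ∀ v : HeightOneSpectrum (𝓞 K),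
    (∃ C : WeierstrassCurve.VariableChange K, C • (W v).map (algebraMap (𝓞 K) K) = E) ∧
    ∀ W' : WeierstrassCurve (𝓞 K),
      (∃ C : WeierstrassCurve.VariableChange K, C • W'.map (algebraMap (𝓞 K) K) = E) →
      ∀ n : ℕ, (W v).Δ ∈ v.asIdeal ^ n → W'.Δ ∈ v.asIdeal ^ n

/-- `a_v`, which is `Nv` minus the number of affine points of the reduction of `W v`, that is `Nv + 1 - #E(k_v)` for
good reduction and `1`, `-1`, `0` for split multiplicative, nonsplit multiplicative and additive reduction -/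
noncomputable def trace (W : HeightOneSpectrum (𝓞 K) → WeierstrassCurve (𝓞 K)) (v : HeightOneSpectrum (𝓞 K)) : ℂ :=
  (Ideal.absNorm v.asIdeal : ℂ) - (Nat.card {xy : (𝓞 K ⧸ v.asIdeal) × (𝓞 K ⧸ v.asIdeal) //
    ((W v).map (Ideal.Quotient.mk v.asIdeal)).toAffine.Equation xy.1 xy.2} : ℂ)

open scoped Classical in
/-- `e_v`, which is `Nv` for good reduction and `0` for bad reduction -/
noncomputable def epsilon (W : HeightOneSpectrum (𝓞 K) → WeierstrassCurve (𝓞 K)) (v : HeightOneSpectrum (𝓞 K)) : ℂ :=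
  if (W v).Δ ∈ v.asIdeal then 0 else (Ideal.absNorm v.asIdeal : ℂ)

/-- the inverse Euler factor `1 - a_v X + e_v X²` at `X = c(Nv) Nv^{-s}` -/
noncomputable def denominator (c : ℕ → ℂ) (W : HeightOneSpectrum (𝓞 K) → WeierstrassCurve (𝓞 K))
    (v : HeightOneSpectrum (𝓞 K)) (s : ℂ) : ℂ :=
  1 - trace W v * (c (Ideal.absNorm v.asIdeal) * (Ideal.absNorm v.asIdeal : ℂ) ^ (-s)) +
    epsilon W v * (c (Ideal.absNorm v.asIdeal) * (Ideal.absNorm v.asIdeal : ℂ) ^ (-s)) ^ 2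

/-- the `L`-series of `E`, twisted by `c`, the Euler product over all finite places -/
noncomputable def LSeries (c : ℕ → ℂ) (W : HeightOneSpectrum (𝓞 K) → WeierstrassCurve (𝓞 K)) (s : ℂ) : ℂ :=
  ∏' v : HeightOneSpectrum (𝓞 K), (denominator c W v s)⁻¹

end

/-- `α^k + β^k`, where `1 - a X + e X² = (1 - α X)(1 - β X)` -/
noncomputable def powerSum (a e : ℂ) : ℕ → ℂ
  | 0 => 2
  | 1 => a
  | k + 2 => a * powerSum a e (k + 1) - e * powerSum a e k

section

variable {K : Type} [Field K] [NumberField K]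

/-- the mean `S_T(s) = ∑_{v, k ≥ 1} c(Nv)^k (α_v^k + β_v^k) / (k Nv^{ks} Γ(1 + k log Nv / T))`, `k = x.2 + 1` -/
noncomputable def mean (c : ℕ → ℂ) (W : HeightOneSpectrum (𝓞 K) → WeierstrassCurve (𝓞 K)) (T : ℝ) (s : ℂ) : ℂ :=
  ∑' x : HeightOneSpectrum (𝓞 K) × ℕ,
    c (Ideal.absNorm x.1.asIdeal) ^ (x.2 + 1) * powerSum (trace W x.1) (epsilon W x.1) (x.2 + 1) /
      (((x.2 : ℂ) + 1) * ((Ideal.absNorm x.1.asIdeal : ℕ) : ℂ) ^ (((x.2 : ℂ) + 1) * s) *
        (Real.Gamma (1 + ((x.2 : ℝ) + 1) * Real.log ((Ideal.absNorm x.1.asIdeal : ℕ) : ℝ) / T) : ℂ))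

/-! ### the roots -/

theorem quad (a e : ℂ) : ∃ r : Fin 2 → ℂ, r 0 + r 1 = a ∧ r 0 * r 1 = e := by
  obtain ⟨w, hw⟩ := IsAlgClosed.exists_pow_nat_eq (a ^ 2 - 4 * e) (n := 2) (by norm_num)
  refine ⟨![(a + w) / 2, (a - w) / 2], ?_, ?_⟩
  · simp only [Matrix.cons_val_zero, Matrix.cons_val_one]
    ring
  · simp only [Matrix.cons_val_zero, Matrix.cons_val_one]
    linear_combination (-1 / 4 : ℂ) * hw

theorem powerSum_eq {a e : ℂ} {r : Fin 2 → ℂ} (h1 : r 0 + r 1 = a) (h2 : r 0 * r 1 = e) (k : ℕ) :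
    powerSum a e k = r 0 ^ k + r 1 ^ k := by
  induction k using Nat.twoStepInduction with
  | zero => simp [powerSum]; norm_num
  | one => simp [powerSum, h1]
  | more k ih1 ih2 =>
    simp only [powerSum]
    rw [ih1, ih2, ← h1, ← h2]
    ring

theorem root_sq {a e : ℂ} {r : Fin 2 → ℂ} (h1 : r 0 + r 1 = a) (h2 : r 0 * r 1 = e) (j : Fin 2) :
    r j ^ 2 = a * r j - e := by
  fin_cases j
  · show r 0 ^ 2 = a * r 0 - e
    rw [← h1, ← h2]; ring
  · show r 1 ^ 2 = a * r 1 - e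
    rw [← h1, ← h2]; ring

theorem root_good {q : ℕ} (hq : 0 < q) {a : ℝ} (ha : |a| ≤ 2 * Real.sqrt q) {z : ℂ}
    (hz : z ^ 2 = (a : ℂ) * z - (q : ℂ)) : ‖z‖ ≤ (q : ℝ) ^ (1 / 2 : ℝ) := by
  obtain ⟨α, h1, h2, h3⟩ := Pool.Agent.TH339.MP.exists_roots (by exact_mod_cast hq : (0 : ℝ) < q) ha
  have h3' : α 0 * α 1 = (q : ℂ) := by rw [h3]; simp
  have h4 : (z - α 0) * (z - α 1) = 0 := by
    linear_combination hz - z * h2 + h3'
  rw [← Real.sqrt_eq_rpow]
  rcases mul_eq_zero.1 h4 with h | h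
  · rw [sub_eq_zero.1 h, h1]
  · rw [sub_eq_zero.1 h, h1]

theorem root_bad {q : ℕ} (hq : 0 < q) {a : ℝ} (ha : |a| ≤ 1) {z : ℂ}
    (hz : z ^ 2 = (a : ℂ) * z - 0) : ‖z‖ ≤ (q : ℝ) ^ (1 / 2 : ℝ) := by
  have h1 : (1 : ℝ) ≤ (q : ℝ) ^ (1 / 2 : ℝ) := Real.one_le_rpow (by exact_mod_cast hq) (by norm_num)
  have h4 : z * (z - a) = 0 := by linear_combination hz
  rcases mul_eq_zero.1 h4 with h | h
  · rw [h, norm_zero]; linarith
  · rw [sub_eq_zero.1 h, Complex.norm_real, Real.norm_eq_abs]; linarith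

theorem root_triv {q : ℕ} (hq : 2 ≤ q) {a : ℝ} (ha : |a| ≤ q) {e z : ℂ} (he : ‖e‖ ≤ q)
    (hz : z ^ 2 = (a : ℂ) * z - e) : ‖z‖ ≤ (q : ℝ) ^ (3 / 2 : ℝ) := by
  have hq2 : (2 : ℝ) ≤ q := by exact_mod_cast hq
  set t : ℝ := Real.sqrt q with ht
  have ht2 : t ^ 2 = q := Real.sq_sqrt (by linarith)
  have ht0 : 0 ≤ t := Real.sqrt_nonneg _
  have ht1 : (7 / 5 : ℝ) ≤ t := by
    rw [ht]
    apply Real.le_sqrt_of_sq_le
    norm_num
    linarith
  have h1 : (q : ℝ) ^ (3 / 2 : ℝ) = t ^ 3 := by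
    rw [ht, Real.sqrt_eq_rpow, ← Real.rpow_natCast, ← Real.rpow_mul (by linarith)]
    norm_num
  rw [h1]
  by_contra hcon
  rw [not_le] at hcon
  set y : ℝ := ‖z‖ with hy
  have h2 : y ^ 2 ≤ t ^ 2 * y + t ^ 2 := by
    have h3 : ‖z ^ 2‖ ≤ ‖(a : ℂ) * z‖ + ‖e‖ := by rw [hz]; exact norm_sub_le _ _
    rw [norm_pow, norm_mul, Complex.norm_real, Real.norm_eq_abs] at h3
    rw [ht2]
    have h4 : |a| * ‖z‖ ≤ q * ‖z‖ := mul_le_mul_of_nonneg_right ha (norm_nonneg _)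
    linarith
  have h5 : t ^ 3 * (t ^ 3 - t ^ 2) < y * (y - t ^ 2) := by
    have h6 : 0 ≤ t ^ 3 - t ^ 2 := by nlinarith [mul_nonneg ht0 ht0]
    have h7 : 0 < t ^ 3 := by positivity
    nlinarith
  have h8 : t ^ 2 ≤ t ^ 3 * (t ^ 3 - t ^ 2) := by
    have h9 : 1 ≤ t ^ 3 * (t - 1) := by
      have h10 : (2 : ℝ) ≤ t ^ 2 := by rw [ht2]; exact hq2
      have h11 : (14 / 25 : ℝ) ≤ t * (t - 1) := by nlinarith
      have h12 : t ^ 3 * (t - 1) = t ^ 2 * (t * (t - 1)) := by ring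
      rw [h12]
      nlinarith
    have h13 : t ^ 3 * (t ^ 3 - t ^ 2) = t ^ 2 * (t ^ 3 * (t - 1)) := by ring
    rw [h13]
    nlinarith [mul_nonneg ht0 ht0]
  nlinarith

theorem trace_eq (W : HeightOneSpectrum (𝓞 K) → WeierstrassCurve (𝓞 K)) (v : HeightOneSpectrum (𝓞 K)) :
    trace W v = ((Pool.Agent.TH339.MP.av W v : ℝ) : ℂ) := by
  have h1 : (Nat.card {xy : (𝓞 K ⧸ v.asIdeal) × (𝓞 K ⧸ v.asIdeal) //
          ((W v).map (Ideal.Quotient.mk v.asIdeal)).toAffine.Equation xy.1 xy.2}) =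
      Pool.Agent.TH339.MP.affc ((W v).map (Ideal.Quotient.mk v.asIdeal)) := by
    unfold Pool.Agent.TH339.MP.affc
    refine Nat.card_congr (Equiv.subtypeEquivRight fun q => ?_)
    exact WeierstrassCurve.Affine.equation_iff ..
  unfold trace Pool.Agent.TH339.MP.av Pool.Agent.TH339.MP.nm
  rw [h1]
  push_cast
  ring

/-- the roots at `v` -/
noncomputable def rt (W : HeightOneSpectrum (𝓞 K) → WeierstrassCurve (𝓞 K)) (v : HeightOneSpectrum (𝓞 K)) :
    Fin 2 → ℂ := (quad (trace W v) (epsilon W v)).choose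

theorem rt_add (W : HeightOneSpectrum (𝓞 K) → WeierstrassCurve (𝓞 K)) (v : HeightOneSpectrum (𝓞 K)) :
    rt W v 0 + rt W v 1 = trace W v := (quad (trace W v) (epsilon W v)).choose_spec.1

theorem rt_mul (W : HeightOneSpectrum (𝓞 K) → WeierstrassCurve (𝓞 K)) (v : HeightOneSpectrum (𝓞 K)) :
    rt W v 0 * rt W v 1 = epsilon W v := (quad (trace W v) (epsilon W v)).choose_spec.2

/-- the parameters of the Euler product -/
noncomputable def al (c : ℕ → ℂ) (W : HeightOneSpectrum (𝓞 K) → WeierstrassCurve (𝓞 K))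
    (v : HeightOneSpectrum (𝓞 K)) (j : Fin 2) : ℂ := c (Ideal.absNorm v.asIdeal) * rt W v j

theorem rt_triv (W : HeightOneSpectrum (𝓞 K) → WeierstrassCurve (𝓞 K)) (v : HeightOneSpectrum (𝓞 K)) (j : Fin 2) :
    ‖rt W v j‖ ≤ nrm v ^ (3 / 2 : ℝ) := by
  classical
  have h1 := root_sq (rt_add W v) (rt_mul W v) j
  rw [trace_eq] at h1
  refine root_triv (Pool.Agent.TH339.MP.two_le_nm v) (Pool.Agent.TH339.MP.av_triv W v) ?_ h1
  unfold epsilon Pool.Agent.TH339.MP.nm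
  split_ifs
  · simp
  · simp

theorem rt_good (W : HeightOneSpectrum (𝓞 K) → WeierstrassCurve (𝓞 K)) (v : HeightOneSpectrum (𝓞 K))
    (hv : v ∉ (Pool.Agent.TH339.MP.S6 : Finset (HeightOneSpectrum (𝓞 K)))) (j : Fin 2) :
    ‖rt W v j‖ ≤ nrm v ^ (1 / 2 : ℝ) := by
  classical
  have h6 : (6 : 𝓞 K) ∉ v.asIdeal := fun h => hv (Pool.Agent.TH339.MP.mem_S6 h)
  have hb := Pool.Agent.TH339.MP.av_bound W v h6
  have hpos : 0 < Pool.Agent.TH339.MP.nm v := by
    have := Pool.Agent.TH339.MP.two_le_nm v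
    omega
  have h1 := root_sq (rt_add W v) (rt_mul W v) j
  rw [trace_eq] at h1
  by_cases h : (W v).Δ ∈ v.asIdeal
  · rw [if_pos h] at hb
    unfold epsilon at h1
    rw [if_pos h] at h1
    exact root_bad hpos hb h1
  · rw [if_neg h] at hb
    unfold epsilon at h1
    rw [if_neg h] at h1
    exact root_good hpos hb h1

theorem eulf {c : ℕ → ℂ} (hc : ∀ n, ‖c n‖ ≤ 1) (W : HeightOneSpectrum (𝓞 K) → WeierstrassCurve (𝓞 K)) :
    EulF 2 (fun v : HeightOneSpectrum (𝓞 K) => nrm v) (al c W) (1 / 2) 1 Pool.Agent.TH339.MP.S6 where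
  d_nonneg := zero_le_one
  two_le := two_le_nrm
  sum := fun _ hσ => nrm_summable hσ
  bound := fun v hv j => by
    unfold al
    rw [norm_mul]
    calc _ ≤ 1 * ‖rt W v j‖ := mul_le_mul_of_nonneg_right (hc _) (norm_nonneg _)
      _ ≤ _ := by rw [one_mul]; exact rt_good W v hv j
  weak := fun v j => by
    unfold al
    rw [norm_mul]
    calc _ ≤ 1 * ‖rt W v j‖ := mul_le_mul_of_nonneg_right (hc _) (norm_nonneg _)
      _ ≤ _ := by
        rw [one_mul]
        have := rt_triv W v j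
        norm_num at this ⊢
        exact this

theorem mean_eq (c : ℕ → ℂ) (W : HeightOneSpectrum (𝓞 K) → WeierstrassCurve (𝓞 K)) :
    mean c W = emean (fun v : HeightOneSpectrum (𝓞 K) => nrm v) (al c W) := by
  funext T s
  unfold mean emean
  refine tsum_congr fun x => ?_
  have h1 : ∑ j, al c W x.1 j ^ (x.2 + 1) =
      c (Ideal.absNorm x.1.asIdeal) ^ (x.2 + 1) * powerSum (trace W x.1) (epsilon W x.1) (x.2 + 1) := by
    rw [powerSum_eq (rt_add W x.1) (rt_mul W x.1), Fin.sum_univ_two]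
    unfold al
    rw [mul_pow, mul_pow]
    ring
  rw [h1]
  unfold nrm
  push_cast
  rfl

theorem LSeries_eq {c : ℕ → ℂ} (hc : ∀ n, ‖c n‖ ≤ 1) (W : HeightOneSpectrum (𝓞 K) → WeierstrassCurve (𝓞 K))
    {s : ℂ} (hs : 3 / 2 < s.re) :
    LSeries c W s = exp (gser (fq fun v : HeightOneSpectrum (𝓞 K) => nrm v) (ca (al c W)) s) := by
  have h1 := (eulf hc W).hasProd (s := s) (by linarith)
  rw [← h1.tprod_eq]
  unfold LSeries
  refine tprod_congr fun v => ?_
  rw [Fin.prod_univ_two, ← mul_inv]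
  congr 1
  unfold denominator al nrm
  rw [← rt_add W v, ← rt_mul W v]
  push_cast
  ring

end

open scoped Classical in
/-- **The criterion for the continuation of the `L`-series of elliptic curves.** -/
theorem result (K : Type) [Field K] [NumberField K] (E : WeierstrassCurve K) [E.IsElliptic]
    (W : HeightOneSpectrum (𝓞 K) → WeierstrassCurve (𝓞 K)) (_ : MinimalModels E W)
    (c : ℕ → ℂ) (hc : ∀ n, ‖c n‖ ≤ 1) :
    List.TFAE [
      ∃ F : ℂ → ℂ, Differentiable ℂ F ∧ ∀ s : ℂ, 3 / 2 < s.re → F s = LSeries c W s,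
      ∀ R : ℝ, 0 < R → ∃ (Z : Finset ℂ) (n : ℂ → ℤ) (T : ℕ → ℝ), (∀ u ∈ Z, 0 ≤ n u) ∧
        BoundedAbove (mean c W) (3 / 2) R Z n T,
      ∀ R : ℝ, 0 < R → ∃ (Z : Finset ℂ) (n : ℂ → ℤ), (∀ u ∈ Z, 0 ≤ n u) ∧
        BoundedOn (mean c W) (3 / 2) R Z n] ∧
    List.TFAE [
      ∃ F : ℂ → ℂ, MeromorphicOn F univ ∧ ∀ s : ℂ, 3 / 2 < s.re → F s = LSeries c W s,
      ∀ R : ℝ, 0 < R → ∃ (Z : Finset ℂ) (n : ℂ → ℤ) (T : ℕ → ℝ),
        BoundedAbove (mean c W) (3 / 2) R Z n T,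
      ∀ R : ℝ, 0 < R → ∃ (Z : Finset ℂ) (n : ℂ → ℤ), BoundedOn (mean c W) (3 / 2) R Z n] ∧
    (∀ F : ℂ → ℂ, MeromorphicOn F univ → (∀ s : ℂ, 3 / 2 < s.re → F s = LSeries c W s) →
      ∀ R : ℝ, 0 < R → 3 / 2 < R → ∀ (Z : Finset ℂ) (n : ℂ → ℤ) (T : ℕ → ℝ),
        BoundedAbove (mean c W) (3 / 2) R Z n T → ∀ s : ℂ, |s.re| < R → |s.im| < R →
          meromorphicOrderAt F s =
            ((∑ u ∈ Z with exp ((s - u) / (R + 1)) = 1, n u : ℤ) : WithTop ℤ)) ∧
    (∀ U : Set ℂ, IsOpen U → (∀ s ∈ U, ∀ x : ℝ, 0 ≤ x → s + x ∈ U) →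
      ((∃ G : ℂ → ℂ, DifferentiableOn ℂ G U ∧ (∀ s ∈ U, G s ≠ 0) ∧
          ∀ s ∈ U, 3 / 2 < s.re → G s = LSeries c W s) ↔
        ∃ T : ℕ → ℝ, Tendsto T atTop atTop ∧ ∀ s ∈ U, ∃ r > 0, ∃ M : ℝ, ∀ᶠ k : ℕ in atTop,
          ∀ w ∈ Metric.ball s r, (mean c W (T k) w).re ≤ M)) := by
  have H : Rep (3 / 2) (gser (fq fun v : HeightOneSpectrum (𝓞 K) => nrm v) (ca (al c W))) (mean c W) := by
    have h := (eulf hc W).rep
    rw [← mean_eq] at h
    norm_num at h ⊢
    exact h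
  have hL : ∀ s : ℂ, 3 / 2 < s.re →
      LSeries c W s = exp (gser (fq fun v : HeightOneSpectrum (𝓞 K) => nrm v) (ca (al c W)) s) :=
    fun s hs => LSeries_eq hc W hs
  exact ⟨forms_entire H hL, forms_mero H hL, forms_divisor H hL, fun U hU hUr =>
    (forms_region H hL hU hUr).out 0 2⟩

end Pool.Agent.Results.MP_7ed9c3_nt.BoundedMeans
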