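import Pool.Agent.Q5.MS.Window3
import Pool.Agent.Results.MP_f50388_nt.WindowLaw

/-!
# Analytic continuation of the `L`-series of elliptic curves over number fields from one window

Let `K` be ANY number field and `E : y² = x³ + a x + b` ANY elliptic curve with `a, b ∈ 𝓞_K`. Nothing is assumed on
the `L`-series `L(s) = ∏_{v ∤ 6Δ} (1 - a_v Nv^{-s} + Nv^{1-2s})⁻¹`, `Re s > 3/2`; in general it is not known whether it
can be continued to any other point. (The finitely many Euler factors left out have neither zeros nor poles for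
`Re s > 1/2`.) Let `P(y) = ∏_{Nv ≤ y} #E(k_v)/Nv` and, for `0 < l < 1`, `W_l(y) = ∏_{y^l < Nv ≤ y} #E(k_v)/Nv`, the part
in the window `(y^l, y]`; these are finite products of numbers of points. Then:

1. For every `σ ≥ 0` and every `0 < l < 1`: `∫_e^Y |log W_l(y)| dy/y = O(Y^(σ+ε))` for all `ε > 0` if and only if
   `∫_e^Y |log P(y)| dy/y = O(Y^(σ+ε))` for all `ε > 0`. So the condition is the same for all windows. For `σ = 1/2` it
   always holds.
2. If this holds for ONE exponent `l`, then `L` has an analytic continuation without zeros to the half plane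
   `Re s > 1 + σ`. So every saving over the trivial bound, for one window, continues the `L`-series past the edge of
   absolute convergence.
3. If for some real numbers `ρ` and `M`, for every `l`, `∫_e^Y |log W_l(y) - ρ log (1/l)| dy/y ≤ M log Y` for all large
   `Y`, then `L` has an analytic continuation without zeros to the half plane `Re s > 1` to the right of the centre,
   and `log |L(1 + x)| / log x → ρ` for `x → 0+`: the order of vanishing at the centre is `ρ`.

If `L` has a continuation of polynomial growth across the central line, the conditions in 2 (for `σ = 0`) and 3 are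
also necessary for zero freeness and for the order `ρ` (`WindowLaw` of problem `MP_f50388_nt`).

Proof. Let `S(u)` be the sum over the prime powers `≤ e^u` of the coefficients of `log L`. From
`S(u) = (S(u) - S(lu)) + S(lu)` and the substitution `u ↦ lu`: if the Laplace integral of `S(u) - S(lu)` converges
absolutely for `x > σ`, then the absolute convergence of the Laplace integral of `S` at `x/l` implies that at `x`;
since it converges for large `x`, it converges for all `x > σ`. For 3, `A(x) = x ∫ S e^{-xu} du` satisfies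
`A(x) = A(x/l) + O(1)` up to the harmonic terms with a constant independent of `l`, which gives
`A(x) = o(log x)` after subtraction of the main term.
-/

set_option autoImplicit false

namespace Pool.Agent.Results.MP_7ed9c3_nt.ContinuationFromOneWindow

open Filter Topology Set Complex NumberField IsDedekindDomain MeasureTheory
open Pool.Agent.Results.MP_ae0bd0_nt.MeanProduct (Good norm points factor product)
open Pool.Agent.Results.MP_f50388_nt.WindowLaw (window)

variable {K : Type} [Field K] [NumberField K]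

/-- `∫_e^Y |log φ(y)| dy/y = O(Y^(σ+ε))` for every `ε > 0`. -/
def Growth (φ : ℝ → ℝ) (σ : ℝ) : Prop := ∀ ε : ℝ, 0 < ε → ∃ B : ℝ, ∀ᶠ Y : ℝ in atTop,
  ∫ y in Real.exp 1..Y, |Real.log (φ y)| / y ≤ B * Y ^ (σ + ε)

/-- `F` is an analytic continuation without zeros of the `L`-series `∏_v factor v` (`Re s > 3/2`) to the half plane
`Re s > 1 + σ`. -/
def Continues (a b : 𝓞 K) (F : ℂ → ℂ) (σ : ℝ) : Prop :=
  (∀ s : ℂ, 1 + σ < s.re → DifferentiableAt ℂ F s ∧ F s ≠ 0) ∧
  ∀ s : ℂ, (3 : ℝ) / 2 < s.re →
    HasProd (fun v : {v : HeightOneSpectrum (𝓞 K) // Good a b v} => factor a b v.1 s) (F s)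

/-! ### translation -/

open Pool.Agent.Results.MP_ae0bd0_nt.MeanProduct (NN log_product real_sums factor_eq)
open Pool.Agent.Results.MP_f50388_nt.WindowLaw (wv_eq mean_int)
open Pool.Agent.TH942.ES (GoodV alV curve_sys LE zv xv)
open Pool.Agent.Q5.MS (Pv WV GY window_gy cont_gy cont_unif gy_half)

theorem gy_product (a b : 𝓞 K) (σ : ℝ) :
    GY (Pv (NN a b) (alV a b)) σ ↔ Growth (product a b) σ := by
  unfold GY Growth
  simp only [log_product]

theorem gy_window (a b : 𝓞 K) {l : ℝ} (hl1 : l < 1) (σ : ℝ) :
    GY (WV (NN a b) (alV a b) 0 l) σ ↔ Growth (window a b l) σ := by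
  unfold GY Growth
  refine forall_congr' fun ε => forall_congr' fun _ => exists_congr fun B => ?_
  refine eventually_congr ?_
  filter_upwards [eventually_ge_atTop (Real.exp 1)] with Y hY
  rw [mean_int a b 0 hl1 hY]
  simp only [zero_mul, sub_zero]

theorem transport (a b : 𝓞 K) {G : ℂ → ℂ} {σ : ℝ}
    (h1 : ∀ w : ℂ, σ < w.re → DifferentiableAt ℂ G w ∧ G w ≠ 0)
    (h2 : ∀ w : ℂ, 1 / 2 < w.re → G w = LE (NN a b) (alV a b) w) :
    Continues a b (fun s => G (s - 1)) σ := by
  refine ⟨fun s hs => ?_, fun s hs => ?_⟩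
  · obtain ⟨h3, h4⟩ := h1 (s - 1) (by rw [Complex.sub_re, Complex.one_re]; linarith)
    exact ⟨DifferentiableAt.comp s (f := fun s : ℂ => s - 1) h3 (by fun_prop), h4⟩
  · have hs' : 1 / 2 < (s - 1).re := by rw [Complex.sub_re, Complex.one_re]; linarith
    have h3 := (curve_sys a b).hasProd (s := s - 1) hs'
    have h4 : (fun v : {v : HeightOneSpectrum (𝓞 K) // Good a b v} => factor a b v.1 s) =
        fun v => ∏ i, (1 - zv (NN a b) (alV a b) v i * xv (NN a b) v (s - 1))⁻¹ := by
      funext v
      exact factor_eq a b v s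
    rw [h4]
    simp only
    rw [h2 _ hs', (curve_sys a b).LE_eq hs']
    exact h3

/-- **Continuation from one window.** -/
theorem result (a b : 𝓞 K) (_hΔ : 4 * a ^ 3 + 27 * b ^ 2 ≠ 0) :
    (∀ σ l : ℝ, 0 ≤ σ → 0 < l → l < 1 → (Growth (window a b l) σ ↔ Growth (product a b) σ)) ∧
    Growth (product a b) (1 / 2) ∧
    (∀ σ l : ℝ, 0 ≤ σ → 0 < l → l < 1 → Growth (window a b l) σ →
      ∃ F : ℂ → ℂ, Continues a b F σ) ∧
    (∀ ρ M : ℝ, (∀ l : ℝ, 0 < l → l < 1 → ∀ᶠ Y : ℝ in atTop,
      ∫ y in Real.exp 1..Y, |Real.log (window a b l y) - ρ * Real.log (1 / l)| / y ≤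
        M * Real.log Y) →
      ∃ F : ℂ → ℂ, Continues a b F 0 ∧
        Tendsto (fun x : ℝ => Real.log ‖F (1 + x)‖ / Real.log x) (𝓝[>] 0) (𝓝 ρ)) := by
  have E := curve_sys a b
  have p1 : ∀ σ l : ℝ, 0 ≤ σ → 0 < l → l < 1 →
      (Growth (window a b l) σ ↔ Growth (product a b) σ) := by
    intro σ l hσ hl hl1
    rw [← gy_window a b hl1, ← gy_product]
    exact window_gy E hl hl1 hσ
  refine ⟨p1, (gy_product a b _).1 (gy_half E), fun σ l hσ hl hl1 h => ?_, fun ρ M h => ?_⟩
  · have h1 := (p1 σ l hσ hl hl1).1 h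
    rw [← gy_product] at h1
    obtain ⟨G, h2, h3⟩ := cont_gy E (real_sums a b) hσ h1
    exact ⟨_, transport a b h2 h3⟩
  · obtain ⟨G, h2, h3, h4⟩ := cont_unif E (real_sums a b) (ρ := ρ) (M := M) (fun l hl hl1 => by
      filter_upwards [h l hl hl1, eventually_ge_atTop (Real.exp 1)] with Y h1 hY
      rw [mean_int a b ρ hl1 hY]
      exact h1)
    refine ⟨_, transport a b h2 h3, h4.congr fun x => ?_⟩
    rw [add_sub_cancel_left]

end Pool.Agent.Results.MP_7ed9c3_nt.ContinuationFromOneWindow
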