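import Pool.Agent.Q9.EP.Ell

/-!
# Analytic continuation of the L-series of elliptic curves across the edge of the Euler product

`E` is an elliptic curve over a number field `K` and `c` a function with `|c| ≤ 1` (for example `c = 1`,
or a Dirichlet character).  The Euler product `L(E ⊗ c, s)` converges for `Re s > 3/2`; a continuation to
any point of the edge `Re s = 3/2` is not known in general, and nothing of this kind is assumed.  The
conjecture of Hasse and Weil predicts an entire continuation of `L(E, s)`.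

We show that the continuation across the edge, and the order of the zero or pole, can be read off from
finite sums of traces of Frobenius over the places of degree one, and that the local continuations glue.
-/

set_option autoImplicit false

namespace Pool.Agent.Results.MP_7ed9c3_nt.EdgeContinuation

open NumberField IsDedekindDomain MeasureTheory Filter Topology Polynomial

section

variable {K : Type} [Field K] [NumberField K]

/-- `W v` is, for every finite place `v`, an integral model of `E` with discriminant minimal at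
`v`. -/
def MinimalModels (E : WeierstrassCurve K)
    (W : HeightOneSpectrum (𝓞 K) → WeierstrassCurve (𝓞 K)) : Prop :=
  ∀ v : HeightOneSpectrum (𝓞 K),
    (∃ C : WeierstrassCurve.VariableChange K, C • (W v).map (algebraMap (𝓞 K) K) = E) ∧
    ∀ W' : WeierstrassCurve (𝓞 K),
      (∃ C : WeierstrassCurve.VariableChange K, C • W'.map (algebraMap (𝓞 K) K) = E) →
      ∀ n : ℕ, (W v).Δ ∈ v.asIdeal ^ n → W'.Δ ∈ v.asIdeal ^ n

/-- `a_v`, which is `Nv` minus the number of affine points of the reduction of `W v`; for bad reduction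
this is `1`, `-1`, `0` in the split multiplicative, non-split multiplicative, additive case. -/
noncomputable def trace (W : HeightOneSpectrum (𝓞 K) → WeierstrassCurve (𝓞 K))
    (v : HeightOneSpectrum (𝓞 K)) : ℂ :=
  (Ideal.absNorm v.asIdeal : ℂ)
    - (Nat.card {xy : (𝓞 K ⧸ v.asIdeal) × (𝓞 K ⧸ v.asIdeal) //
        ((W v).map (Ideal.Quotient.mk v.asIdeal)).toAffine.Equation xy.1 xy.2} : ℂ)

open Classical in
/-- The inverse of the Euler factor at `v` of the twist by the function `c`: with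
`x = c(Nv) Nv^{-s}` it is `1 - a_v x + Nv x²` if the reduction at `v` is good and `1 - a_v x` if it is
bad.  For `c = 1` it is the Euler factor of `L(E, s)`. -/
noncomputable def denominator (c : ℕ → ℂ) (W : HeightOneSpectrum (𝓞 K) → WeierstrassCurve (𝓞 K))
    (v : HeightOneSpectrum (𝓞 K)) (s : ℂ) : ℂ :=
  1 - trace W v * (c (Ideal.absNorm v.asIdeal) * (Ideal.absNorm v.asIdeal : ℂ) ^ (-s)) +
    (if (W v).Δ ∈ v.asIdeal then 0 else (Ideal.absNorm v.asIdeal : ℂ)) *
      (c (Ideal.absNorm v.asIdeal) * (Ideal.absNorm v.asIdeal : ℂ) ^ (-s)) ^ 2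

/-- The `L`-series of `E`, twisted by `c`, as the Euler product over all finite places. -/
noncomputable def LSeries (c : ℕ → ℂ) (W : HeightOneSpectrum (𝓞 K) → WeierstrassCurve (𝓞 K))
    (s : ℂ) : ℂ :=
  ∏' v : HeightOneSpectrum (𝓞 K), (denominator c W v s)⁻¹

/-- The point `3/2 + iτ` of the edge. -/
noncomputable def edge (τ : ℝ) : ℂ := 3 / 2 + τ * Complex.I

/-- `a(p) = c(p) p^{-1/2} ∑_{Nv = p} a_v` for a prime `p > 3`, and `a(2) = a(3) = 0`. -/
noncomputable def a (c : ℕ → ℂ) (W : HeightOneSpectrum (𝓞 K) → WeierstrassCurve (𝓞 K)) (p : ℕ) : ℂ :=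
  if 3 < p then c p * (∑ᶠ (v : HeightOneSpectrum (𝓞 K)) (_ : Ideal.absNorm v.asIdeal = p), trace W v) *
    (p : ℂ) ^ (-(1 / 2) : ℂ) else 0

/-- The finite sum `S_x(t) = ∑_{p ≤ x} (a(p) - m p^{iτ}) p^{-1-it}` over the prime numbers. -/
noncomputable def primeSum (c : ℕ → ℂ) (W : HeightOneSpectrum (𝓞 K) → WeierstrassCurve (𝓞 K)) (τ : ℝ)
    (m : ℤ) (x : ℕ) (t : ℝ) : ℂ :=
  ∑ p ∈ (Finset.range (x + 1)).filter Nat.Prime,
    (a c W p - m * (p : ℂ) ^ ((τ : ℂ) * Complex.I)) * (p : ℂ) ^ (-(1 + t * Complex.I : ℂ))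

/-- Near `τ` the finite sums are approximated by polynomials at a geometric rate: there are `h > 0` and
`C` such that for every `d` there is a polynomial `P` of degree at most `d` with
`∫_{τ-h}^{τ+h} |S_x(t) - P(t)|² dt ≤ C 100^{-d}` for all sufficiently large `x`. -/
def PolyApprox (c : ℕ → ℂ) (W : HeightOneSpectrum (𝓞 K) → WeierstrassCurve (𝓞 K)) (τ : ℝ)
    (m : ℤ) : Prop :=
  ∃ h C : ℝ, 0 < h ∧ ∀ d : ℕ, ∃ P : ℂ[X], P.natDegree ≤ d ∧ ∃ x₀ : ℕ, ∀ x : ℕ, x₀ ≤ x →
    ∫ t in (τ - h)..(τ + h), ‖primeSum c W τ m x t - P.eval (t : ℂ)‖ ^ 2 ≤ C * (1 / 100) ^ d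

lemma trace_eq (W : HeightOneSpectrum (𝓞 K) → WeierstrassCurve (𝓞 K))
    (v : HeightOneSpectrum (𝓞 K)) :
    trace W v = ((Pool.Agent.TH339.MP.av W v : ℝ) : ℂ) := by
  have h1 : (Nat.card {xy : (𝓞 K ⧸ v.asIdeal) × (𝓞 K ⧸ v.asIdeal) //
          ((W v).map (Ideal.Quotient.mk v.asIdeal)).toAffine.Equation xy.1 xy.2}) =
      Pool.Agent.TH339.MP.affc ((W v).map (Ideal.Quotient.mk v.asIdeal)) := by
    unfold Pool.Agent.TH339.MP.affc
    refine Nat.card_congr (Equiv.subtypeEquivRight fun q => ?_)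
    exact WeierstrassCurve.Affine.equation_iff ..
  unfold trace Pool.Agent.TH339.MP.av Pool.Agent.TH339.MP.nm
  rw [h1]
  push_cast
  ring

lemma denominator_eq (c : ℕ → ℂ) (W : HeightOneSpectrum (𝓞 K) → WeierstrassCurve (𝓞 K))
    (v : HeightOneSpectrum (𝓞 K)) (s : ℂ) :
    denominator c W v s = 1 - Pool.Agent.Q9.EL.yv c W v s := by
  unfold denominator
  rw [trace_eq]
  unfold Pool.Agent.Q9.EL.yv Pool.Agent.TH339.MP.nm
  ring

lemma LSeries_eq (c : ℕ → ℂ) (W : HeightOneSpectrum (𝓞 K) → WeierstrassCurve (𝓞 K)) :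
    LSeries c W = Pool.Agent.Q9.EP.LE c W := by
  funext s
  unfold LSeries Pool.Agent.Q9.EP.LE
  exact tprod_congr fun v => by rw [denominator_eq]

lemma a_eq (c : ℕ → ℂ) (W : HeightOneSpectrum (𝓞 K) → WeierstrassCurve (𝓞 K)) :
    a c W = Pool.Agent.Q9.EP.aE c W := by
  funext p
  unfold a Pool.Agent.Q9.EP.aE Pool.Agent.Q9.EP.AE
  congr 3
  exact finsum_congr fun v => by rw [trace_eq]; rfl

lemma edge_eq (τ : ℝ) : edge τ = (((3 / 2 : ℝ) : ℂ) + τ * Complex.I) := by
  unfold edge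
  push_cast
  ring

lemma approx_eq (c : ℕ → ℂ) (W : HeightOneSpectrum (𝓞 K) → WeierstrassCurve (𝓞 K)) (τ : ℝ) (m : ℤ) :
    PolyApprox c W τ m ↔ Pool.Agent.Q9.EP.ApprQ
      (fun p => Pool.Agent.Q9.EP.aE c W p - m * (p : ℂ) ^ ((τ : ℂ) * Complex.I)) τ := by
  rw [← a_eq]
  rfl

end

/-- **Continuation across the edge.**  Let `E` be an elliptic curve over a number field `K` and `c` a
function with `|c| ≤ 1`.

1. For every real `τ` and every integer `m`, `L(E ⊗ c, s)` has a meromorphic continuation to a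
   neighbourhood of `3/2 + iτ`, of order `-m` at this point, if and only if near `τ` the sums
   `∑_{p ≤ x} (a(p) - m p^{iτ}) p^{-1-it}` are approximated by polynomials in `t` at a geometric rate.
2. For every set `A` of real numbers, `L(E ⊗ c, s)` has a holomorphic continuation to an open set that
   contains the half-plane `Re s > 3/2` and the points `3/2 + iτ`, `τ ∈ A`, if and only if for every
   `τ ∈ A` there is such an integer `m ≤ 0`.
3. The same holds for meromorphic continuation and arbitrary integers `m`. -/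
theorem result (K : Type) [Field K] [NumberField K] (E : WeierstrassCurve K) [E.IsElliptic]
    (W : HeightOneSpectrum (𝓞 K) → WeierstrassCurve (𝓞 K)) (_ : MinimalModels E W)
    (c : ℕ → ℂ) (hc : ∀ n, ‖c n‖ ≤ 1) :
    (∀ (τ : ℝ) (m : ℤ),
      (∃ g : ℂ → ℂ, MeromorphicAt g (edge τ) ∧ meromorphicOrderAt g (edge τ) = (-m : ℤ) ∧
        ∀ᶠ s in 𝓝 (edge τ), 3 / 2 < s.re → g s = LSeries c W s) ↔ PolyApprox c W τ m) ∧
    (∀ A : Set ℝ,
      (∃ (U : Set ℂ) (G : ℂ → ℂ), IsOpen U ∧ {s : ℂ | 3 / 2 < s.re} ⊆ U ∧ (∀ τ ∈ A, edge τ ∈ U) ∧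
        DifferentiableOn ℂ G U ∧ ∀ s : ℂ, 3 / 2 < s.re → G s = LSeries c W s) ↔
      ∀ τ ∈ A, ∃ m : ℤ, m ≤ 0 ∧ PolyApprox c W τ m) ∧
    ∀ A : Set ℝ,
      (∃ (U : Set ℂ) (G : ℂ → ℂ), IsOpen U ∧ {s : ℂ | 3 / 2 < s.re} ⊆ U ∧ (∀ τ ∈ A, edge τ ∈ U) ∧
        MeromorphicOn G U ∧ ∀ s : ℂ, 3 / 2 < s.re → G s = LSeries c W s) ↔
      ∀ τ ∈ A, ∃ m : ℤ, PolyApprox c W τ m := by
  simp_rw [approx_eq, LSeries_eq, edge_eq]
  exact ⟨fun τ m => Pool.Agent.Q9.EP.ec_mer hc W τ m, Pool.Agent.Q9.EP.ec_glue_hol hc W,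
    Pool.Agent.Q9.EP.ec_glue hc W⟩

end Pool.Agent.Results.MP_7ed9c3_nt.EdgeContinuation
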