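import Mathlib
import Pool.Agent.Q12.VB.E2

/-! Holomorphy and zero-freeness of `L`-series of elliptic curves over number fields, and of all products of integer
powers of them, from bounds for prime sums in windows. -/

set_option autoImplicit false

open Pool.Agent.Q12.VB

namespace Pool.Agent.Results.MP_7ed9c3_nt.OneSidedHolomorphy

/-- **Windows and holomorphy.** Let `L(E_j/K_j ⊗ c_j, s)` be finitely many `L`-series of elliptic curves over number
fields with twists, with integer multiplicities `m_j`, the family being stable under complex conjugation (for example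
one curve, `m = 1`, `c = 1`), and let `F_j` be meromorphic continuations of them to `ℂ`. Let
`S(x) = ∑_{p ≤ x} ∑_j m_j ∑_{Nv = p} c_j(v) a_v(E_j) / √p` (`primeSum`), `c ≥ 1/2` and `0 < δ ≤ 1`.

1. Suppose that the product `∏ F_j^{m_j}` has no pole on the real half-line `s > c + 1/2` and that, for some `A, B` and
   arbitrarily large `X`, `S(x) ≥ -(A x^c + B)` in the whole window `[X^{1-δ}, X]`. Then the product has neither zeros
   nor poles in the half-plane `Re s > c + 1/2`.
2. If, for some `A, B` and arbitrarily large `X`, `|S(x)| ≤ A x^c + B` in the whole window, then the same holds, with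
   nothing assumed on the real line. -/
theorem result {ι : Type} [Fintype ι] (D : ι → EDatum) (m : ι → ℤ) (F : ι → ℂ → ℂ) (h : Continued D m F)
    (c δ : ℝ) (hc : 1 / 2 ≤ c) (hδ : 0 < δ) (hδ1 : δ ≤ 1) :
    ((∀ x : ℝ, c + 1 / 2 < x → 0 ≤ meromorphicOrderAt (product m F) (x : ℂ)) →
      BoundedBelow c δ (primeSum D m) →
        ∀ ρ : ℂ, c + 1 / 2 < ρ.re → meromorphicOrderAt (product m F) ρ = 0) ∧
    (Bounded c δ (primeSum D m) →
      ∀ ρ : ℂ, c + 1 / 2 < ρ.re → meromorphicOrderAt (product m F) ρ = 0) :=
  ⟨fun h1 h2 _ hρ => h.one hc hδ h1 h2 hρ, fun h1 _ hρ => h.two hc hδ hδ1 h1 hρ⟩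

end Pool.Agent.Results.MP_7ed9c3_nt.OneSidedHolomorphy
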